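import Pool.Agent.H66.SYM.Basic

/-!
VIC: the constituents of `V_nu(τ)`.
-/

namespace Pool.H66.SYM

open Filter Topology

theorem s_VIC (hBAS : S_BAS) (hKOS : S_KOS) (hDIM : S_DIM) (hCON : S_CON) : S_VIC := by
  intro A τ m hm hτ nu hnu Q hQ
  obtain ⟨K, hK1, hK2, _⟩ := hKOS m nu hnu
  obtain ⟨b1, _, b3, _⟩ := hBAS A
  -- the point `1` at the archimedean place
  have hone : ∀ σ, A.eig σ ⟨A.inf, 1, 1⟩ = Multiset.replicate (A.deg σ) 1 := by
    intro σ
    have h1 := b3 σ ⟨A.inf, 1, 1⟩ 0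
    have h2 : (AData.Pt.pow (⟨A.inf, 1, 1⟩ : A.Pt) 0) = ⟨A.inf, 1, 1⟩ := by
      simp [AData.Pt.pow]
    rw [h2] at h1
    rw [h1]
    simp only [zpow_zero]
    rw [Multiset.map_const', b1]
  have hdeg : ∀ R : Multiset A.Cusp, (A.eigs R ⟨A.inf, 1, 1⟩).sum = (((R.map A.deg).sum : ℕ) : ℂ) := by
    intro R
    induction R using Multiset.induction_on with
    | empty => rw [eigs_zero]; simp
    | cons z R ih =>
      rw [eigs_cons, Multiset.sum_add, ih, hone]
      simp
  have hbound : (Q.map A.deg).sum ≤ m ^ (∑ j, nu j + m) := by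
    have h1 := hDIM m nu hm hnu
    have h2 := hQ ⟨A.inf, 1, 1⟩
    rw [hdeg, hone, hτ] at h2
    have hX : (Finset.univ.val.map fun _ : Fin m => (1 : ℂ)) = Multiset.replicate m 1 := by
      rw [Multiset.map_const', Finset.card_val, Finset.card_univ, Fintype.card_fin]
    rw [hX, ← h2, Complex.norm_natCast] at h1
    exact_mod_cast h1
  refine hCON A τ m _ _ Q K ?_ ?_ ?_
  · intro a ha
    obtain ⟨h1, h2⟩ := hK2 a ha
    refine ⟨?_, ?_⟩
    · rw [h2]
      push_cast
      rfl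
    · have h3 : ∑ j, |a j| = ∑ j, a j := Finset.sum_congr rfl fun j _ => abs_of_nonneg (h1 j)
      rw [h3, h2]
      push_cast
      have : (0 : ℤ) ≤ m := Int.natCast_nonneg m
      linarith
  · intro z hz
    refine le_trans ?_ hbound
    exact Multiset.single_le_sum (fun _ _ => Nat.zero_le _) _ (Multiset.mem_map_of_mem _ hz)
  · intro p c hc
    rw [hQ p, hc]
    exact hK1 c

end Pool.H66.SYM
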