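import Pool.Agent.H66.SYM.Basic

/-!
VIR: virtual representations form a ring which contains the Schur functors.
-/

namespace Pool.H66.SYM

open Filter Topology

theorem VIR_sum (A : AData) (Q : Multiset A.Cusp) : (fun p => (A.eigs Q p).sum) ∈ A.VV := by
  induction Q using Multiset.induction_on with
  | empty =>
    have : (fun p => (A.eigs (0 : Multiset A.Cusp) p).sum) = 0 := by
      funext p
      rw [eigs_zero]
      rfl
    rw [this]
    exact A.VV.zero_mem
  | cons z Q ih =>
    have : (fun p => (A.eigs (z ::ₘ Q) p).sum) = A.tr z + fun p => (A.eigs Q p).sum := by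
      funext p
      rw [eigs_cons, Multiset.sum_add]
      rfl
    rw [this]
    exact A.VV.add_mem (AddSubgroup.subset_closure ⟨z, rfl⟩) ih

theorem VIR_mul (hTEN : S_TEN) (A : Aut) (h : A.HasSym 2) :
    ∀ F ∈ A.VV, ∀ G ∈ A.VV, F * G ∈ A.VV := by
  intro F hF G hG
  refine AddSubgroup.closure_induction (p := fun F _ => F * G ∈ A.VV) ?_ ?_ ?_ ?_ hF
  · rintro _ ⟨z, rfl⟩
    refine AddSubgroup.closure_induction (p := fun G _ => A.tr z * G ∈ A.VV) ?_ ?_ ?_ ?_ hG
    · rintro _ ⟨w, rfl⟩
      obtain ⟨T, hT⟩ := hTEN A h {z} {w}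
      have : A.tr z * A.tr w = fun p => (A.eigs T p).sum := by
        funext p
        rw [hT p, eigs_singleton, eigs_singleton]
        rfl
      rw [this]
      exact VIR_sum A.toAData T
    · rw [mul_zero]
      exact A.VV.zero_mem
    · intro x y _ _ hx hy
      rw [mul_add]
      exact A.VV.add_mem hx hy
    · intro x _ hx
      rw [mul_neg]
      exact A.VV.neg_mem hx
  · rw [zero_mul]
    exact A.VV.zero_mem
  · intro x y _ _ hx hy
    rw [add_mul]
    exact A.VV.add_mem hx hy
  · intro x _ hx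
    rw [neg_mul]
    exact A.VV.neg_mem hx

theorem s_VIR (hHSB : S_HSB) (hTEN : S_TEN) : S_VIR := by
  intro A hS
  have hmul := VIR_mul hTEN A (hS 2)
  refine ⟨hmul, fun r lam P => ?_⟩
  have hone : (1 : A.Pt → ℂ) ∈ A.VV := by
    obtain ⟨Q, hQ⟩ := hS 0 P
    have : (1 : A.Pt → ℂ) = fun p => (A.eigs Q p).sum := by
      funext p
      rw [hQ p, hHSB.1]
      rfl
    rw [this]
    exact VIR_sum A.toAData Q
  have hent : ∀ n : ℤ, (fun p : A.Pt => sz (fun k => hs k (A.eigs P p)) n) ∈ A.VV := by
    intro n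
    unfold sz
    by_cases hn : 0 ≤ n
    · simp only [if_pos hn]
      obtain ⟨Q, hQ⟩ := hS n.toNat P
      have : (fun p => hs n.toNat (A.eigs P p)) = fun p => (A.eigs Q p).sum := by
        funext p
        rw [hQ p]
      rw [this]
      exact VIR_sum A.toAData Q
    · simp only [if_neg hn]
      exact A.VV.zero_mem
  have hprod : ∀ (S : Finset (Fin r)) (f : Fin r → A.Pt → ℂ), (∀ i, f i ∈ A.VV) →
      ∏ i ∈ S, f i ∈ A.VV := by
    intro S f hf
    classical
    induction S using Finset.induction_on with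
    | empty => exact hone
    | insert a S ha ih =>
      rw [Finset.prod_insert ha]
      exact hmul _ (hf a) _ ih
  have hdet : (fun p => schur lam (A.eigs P p)) = ∑ σ : Equiv.Perm (Fin r),
      (Equiv.Perm.sign σ : ℤ) • ∏ i, (fun p : A.Pt => sz (fun k => hs k (A.eigs P p))
        ((lam (σ i) : ℤ) - ((σ i : Fin r) : ℤ) + (i : ℤ))) := by
    funext p
    unfold schur JT
    rw [Matrix.det_apply, Finset.sum_apply]
    refine Finset.sum_congr rfl fun σ _ => ?_
    rw [Pi.smul_apply, Finset.prod_apply]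
    rfl
  rw [hdet]
  refine AddSubgroup.sum_mem _ fun σ _ => AddSubgroup.zsmul_mem _ ?_ _
  exact hprod _ _ fun i => hent _

end Pool.H66.SYM
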